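import Pool.Agent.H.MP_345ce5_an.D

set_option autoImplicit false

open Set Filter Topology Metric MeasureTheory

namespace Pool.Agent.Results.MP_84bbc2_an.No

def IsPeak (α : ℝ) (E : Set ℂ) : Prop :=
  ∃ f : ℂ → ℂ, DifferentiableOn ℂ f (ball 0 1) ∧ ContinuousOn f (closedBall 0 1) ∧
    (∃ C : ℝ, ∀ a ∈ sphere (0 : ℂ) 1, ∀ b ∈ sphere (0 : ℂ) 1, ‖f a - f b‖ ≤ C * ‖a - b‖ ^ α) ∧
    (∀ a ∈ E, f a = 1) ∧ ∀ a ∈ sphere (0 : ℂ) 1, a ∉ E → ‖f a‖ < 1

open Pool.Agent.H.MP_345ce5_an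

theorem result (α : ℝ) (h0 : 0 < α) (h1 : α < 1) :
    ∃ E : Set ℂ, IsClosed E ∧ E ⊆ sphere 0 1 ∧ E.Nonempty ∧ E.Countable ∧ IsPeak α E ∧
      ∫⁻ θ in Ioc 0 (2 * Real.pi), infEDist (circleMap 0 1 θ) E ^ (-α) = ⊤ := by
  obtain ⟨r, μ, N, κ, a1, a2, a3, a4, a5, a6, a7, a8, a9, b1, b2⟩ := params h0 h1
  have H := blocks r μ N a1 a2 a3 a4 a5 a6 a7 a8
  obtain ⟨c1, c2⟩ := H.peak h0 h1 a9 fun i => le_trans (by
    have := sub_pos.2 h1
    gcongr
    exact (pt_one (a1 _) (a2 _) i.2.2).2) (b1 i.1)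
  have nE : ∀ z ∈ insert 1 (range fun i : Σ j, Fin (N j) => pt r N i.1 i.2), ‖z‖ = 1 := by
    rintro z (rfl | ⟨i, rfl⟩)
    exacts [norm_one, H.hζ i]
  refine ⟨_, c1, fun z hz => mem_sphere_zero_iff_norm.2 (nE z hz), insert_nonempty _ _,
    (countable_range _).insert _, c2, ?_⟩
  have hc : ∀ j, ∀ θ ∈ Ioc (r j) (2 * r j),
      ∃ ζ ∈ insert 1 (range fun i : Σ j, Fin (N j) => pt r N i.1 i.2),
        ‖circleMap 0 1 θ - ζ‖ ≤ r j / N j := fun j θ hθ => by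
    obtain ⟨n, hn, h⟩ := cover r N (a1 j) (a4 j) hθ
    exact ⟨_, Or.inr ⟨⟨j, ⟨n, hn⟩⟩, rfl⟩, h⟩
  generalize insert 1 (range fun i : Σ j, Fin (N j) => pt r N i.1 i.2) = E at hc
  have hd : Pairwise (Function.onFun Disjoint fun j => Ioc (r j) (2 * r j)) := by
    refine pairwise_disjoint_on _ |>.2 fun i j h => ?_
    exact disjoint_left.2 fun x h1 h2 => by linarith [a3 i j h, a1 j, h1.1, h2.2]
  have hs : (⋃ j, Ioc (r j) (2 * r j)) ⊆ Ioc 0 (2 * Real.pi) := iUnion_subset fun j =>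
    Ioc_subset_Ioc (a1 j).le (by linarith [a2 j, Real.two_le_pi])
  refine eq_top_iff.2 (le_trans ?_ (lintegral_mono_set hs))
  rw [lintegral_iUnion (fun _ => measurableSet_Ioc) hd]
  have k : ∀ j : ℕ, ENNReal.ofReal (2 ^ (-α) * (1 / ((j : ℝ) + 1))) ≤
      ∫⁻ θ in Ioc (r j) (2 * r j), infEDist (circleMap 0 1 θ) E ^ (-α) := fun j => by
    have p : 0 < r j / N j := div_pos (a1 j) (by exact_mod_cast a4 j)
    refine le_trans ?_ (setLIntegral_mono' measurableSet_Ioc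
      (f := fun _ => ENNReal.ofReal ((2 * (r j / N j)) ^ (-α))) fun θ hθ => ?_)
    · rw [setLIntegral_const, Real.volume_Ioc, ← ENNReal.ofReal_mul (by positivity), ← b2]
      exact ENNReal.ofReal_le_ofReal (le_of_eq (by ring))
    · obtain ⟨ζ, h2, h3⟩ := hc j θ hθ
      rw [← ENNReal.ofReal_rpow_of_pos (by positivity), ENNReal.rpow_neg, ENNReal.rpow_neg]
      refine ENNReal.inv_le_inv.2 (ENNReal.rpow_le_rpow ((infEDist_le_edist_of_mem h2).trans ?_) h0.le)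
      rw [edist_dist, dist_eq_norm]
      exact ENNReal.ofReal_le_ofReal (by linarith)
  refine le_trans (top_le_iff.2 ?_) (ENNReal.tsum_le_tsum k)
  by_contra hne
  have := ENNReal.summable_toReal hne
  have h2 : Summable fun j : ℕ => (2 : ℝ) ^ (-α) * (1 / ((j : ℝ) + 1)) :=
    this.congr fun j => ENNReal.toReal_ofReal (by positivity)
  rw [summable_mul_left_iff (by positivity)] at h2
  exact Real.not_summable_one_div_natCast
    ((summable_nat_add_iff 1).1 (by exact_mod_cast h2))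

end Pool.Agent.Results.MP_84bbc2_an.No
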